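import Pool.Agent.Helper59.MB.Goals2

/-!
# MP_49a1ce_an, project MB, packet KE2: pigeonhole for the prediction errors
-/

set_option autoImplicit false

open MeasureTheory Filter Topology Finset

namespace Pool.Agent.Helper23.MB

open Pool.Agent.Helper59.MB

theorem loc_mono {r r' : ℕ} (h : r ≤ r') {e : (ℕ → ℤ) → ℝ} (he : Loc r e) : Loc r' e :=
  fun p p' hp => he p p' fun i hi => hp i (hi.trans_le h)

theorem pyth (u : ℕ → ℤ) (N r r' : ℕ) (hr : r ≤ r') (e e' : (ℕ → ℤ) → ℝ) (he : Pred u N r e)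
    (he' : Pred u N r' e') :
    ∑ n ∈ Icc 1 N, ((u n : ℝ) - e (past u n)) ^ 2 =
      ∑ n ∈ Icc 1 N, ((u n : ℝ) - e' (past u n)) ^ 2 +
        ∑ n ∈ Icc 1 N, (e' (past u n) - e (past u n)) ^ 2 := by
  have h1 : Loc r' fun p => e' p - e p := fun p p' hp => by
    show e' p - e p = e' p' - e p'
    rw [he'.loc p p' hp, loc_mono hr he.loc p p' hp]
  have h2 := he'.orth _ h1
  have h3 : ∑ n ∈ Icc 1 N, ((u n : ℝ) - e (past u n)) ^ 2 =
      ∑ n ∈ Icc 1 N, (((u n : ℝ) - e' (past u n)) ^ 2 +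
        (e' (past u n) - e (past u n)) ^ 2 +
        2 * (((u n : ℝ) - e' (past u n)) * (e' (past u n) - e (past u n)))) :=
    Finset.sum_congr rfl fun n _ => by ring
  rw [h3, Finset.sum_add_distrib, Finset.sum_add_distrib, ← Finset.mul_sum, h2, mul_zero, add_zero]

theorem pe0_le (u : ℕ → ℤ) (hu : ∀ n, |u n| ≤ 1) (N : ℕ) (e : (ℕ → ℤ) → ℝ) (he : Pred u N 0 e) :
    ∑ n ∈ Icc 1 N, ((u n : ℝ) - e (past u n)) ^ 2 ≤ N := by
  have h2 := he.orth _ he.loc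
  have h3 : ∑ n ∈ Icc 1 N, (u n : ℝ) ^ 2 =
      ∑ n ∈ Icc 1 N, (((u n : ℝ) - e (past u n)) ^ 2 + (e (past u n)) ^ 2 +
        2 * (((u n : ℝ) - e (past u n)) * e (past u n))) :=
    Finset.sum_congr rfl fun n _ => by ring
  rw [Finset.sum_add_distrib, Finset.sum_add_distrib, ← Finset.mul_sum, h2, mul_zero,
    add_zero] at h3
  have h4 : 0 ≤ ∑ n ∈ Icc 1 N, (e (past u n)) ^ 2 := Finset.sum_nonneg fun n _ => sq_nonneg _
  have h5 : ∑ n ∈ Icc 1 N, (u n : ℝ) ^ 2 ≤ ∑ n ∈ Icc 1 N, (1 : ℝ) := by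
    refine Finset.sum_le_sum fun n _ => ?_
    have h6 : |(u n : ℝ)| ≤ 1 := by exact_mod_cast hu n
    rw [← sq_abs]
    exact pow_le_one₀ (abs_nonneg _) h6
  rw [Finset.sum_const, Nat.card_Icc, nsmul_eq_mul, mul_one, Nat.add_sub_cancel] at h5
  linarith

theorem t_KE2 : S_KE2 := by
  intro u hu N l M e hM he
  have hsum : ∑ j ∈ range M, ∑ n ∈ Icc 1 N, (e (j * l + l) (past u n) - e (j * l) (past u n)) ^ 2 ≤
      N := by
    have h1 : ∀ j ∈ range M,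
        ∑ n ∈ Icc 1 N, (e (j * l + l) (past u n) - e (j * l) (past u n)) ^ 2 =
        ∑ n ∈ Icc 1 N, ((u n : ℝ) - e (j * l) (past u n)) ^ 2 -
          ∑ n ∈ Icc 1 N, ((u n : ℝ) - e ((j + 1) * l) (past u n)) ^ 2 := by
      intro j _
      have h2 := pyth u N (j * l) (j * l + l) (Nat.le_add_right _ _) _ _ (he (j * l))
        (he (j * l + l))
      have h3 : (j + 1) * l = j * l + l := by ring
      rw [h3]
      linarith
    rw [Finset.sum_congr rfl h1,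
      Finset.sum_range_sub' (fun j => ∑ n ∈ Icc 1 N, ((u n : ℝ) - e (j * l) (past u n)) ^ 2)]
    have h4 : 0 ≤ ∑ n ∈ Icc 1 N, ((u n : ℝ) - e (M * l) (past u n)) ^ 2 :=
      Finset.sum_nonneg fun n _ => sq_nonneg _
    have h5 := pe0_le u hu N _ (he 0)
    rw [Nat.zero_mul]
    linarith
  have hM0 : (0 : ℝ) < M := by exact_mod_cast hM
  have hle : ∑ j ∈ range M, ∑ n ∈ Icc 1 N,
      (e (j * l + l) (past u n) - e (j * l) (past u n)) ^ 2 ≤ ∑ _j ∈ range M, (N : ℝ) / M := by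
    rw [Finset.sum_const, Finset.card_range, nsmul_eq_mul, mul_div_cancel₀ _ hM0.ne']
    exact hsum
  obtain ⟨j, hj, hj2⟩ := Finset.exists_le_of_sum_le (Finset.nonempty_range_iff.2 hM.ne') hle
  exact ⟨j, Finset.mem_range.1 hj, hj2⟩

end Pool.Agent.Helper23.MB
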