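import Pool.Agent.Helper59.MB.Goals1

/-!
# MP_49a1ce_an, project MB, packet MEA: measurability
-/

set_option autoImplicit false

open MeasureTheory Filter Topology

namespace Pool.Agent.Helper23.MB

open Pool.Agent.Helper59.MB

theorem meas_hit (s : ℕ → ℕ) (c : Sp) (i : ℕ) : MeasurableSet {w : Wd | hit s c w i} := by
  unfold hit
  have h1 : {w : Wd | i % P s c.1 = c.2.1 ∧ ∀ a < 2 * c.1 + 1, ∀ j < c.1,
      (w (i - c.1 + a) j = true ↔ (a, j) ∈ c.2.2)} =
      {_w : Wd | i % P s c.1 = c.2.1} ∩ ⋂ a : ℕ, ⋂ _ : a < 2 * c.1 + 1, ⋂ j : ℕ, ⋂ _ : j < c.1,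
        (fun w : Wd => w (i - c.1 + a) j) ⁻¹' {b : Bool | b = true ↔ (a, j) ∈ c.2.2} := by
    ext w
    simp only [Set.mem_setOf_eq, Set.mem_inter_iff, Set.mem_iInter, Set.mem_preimage]
  rw [h1]
  refine (MeasurableSet.const _).inter ?_
  refine MeasurableSet.iInter fun a => MeasurableSet.iInter fun _ => MeasurableSet.iInter fun j =>
    MeasurableSet.iInter fun _ => ?_
  have h2 : Measurable fun w : Wd => w (i - c.1 + a) j :=
    (measurable_pi_apply j).comp (measurable_pi_apply (i - c.1 + a))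
  exact h2 (MeasurableSet.of_discrete)

theorem meas_ev (s : ℕ → ℕ) (l i : ℕ) : Measurable fun w : Wd => ev s l w i := by
  unfold ev
  refine Measurable.ite ?_ measurable_const measurable_const
  have h1 : {w : Wd | (spec l).1 ≤ l ∧ (spec l).1 ≤ i % P s l ∧ i % P s l + (spec l).1 < P s l ∧
      hit s (spec l) w i} = {_w : Wd | (spec l).1 ≤ l ∧ (spec l).1 ≤ i % P s l ∧
        i % P s l + (spec l).1 < P s l} ∩ {w : Wd | hit s (spec l) w i} := by
    ext w
    simp only [Set.mem_setOf_eq, Set.mem_inter_iff]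
    tauto
  rw [h1]
  exact (MeasurableSet.const _).inter (meas_hit s _ i)

theorem meas_good (s : ℕ → ℕ) (V : ℕ → Set (ℕ → ℝ)) (hV : ∀ k, (V k).Countable) (k : ℕ) (η : ℝ)
    (e : ℕ → ℕ → ℝ) : MeasurableSet {w : Wd | GoodW s V k η e w} := by
  unfold GoodW
  have h1 : {w : Wd | ∀ l ≤ k, ∀ i₁ i₂ : ℕ, i₁ ≤ i₂ → i₂ ≤ P s (k + 1) → ∀ v ∈ V k,
      |∑ i ∈ Finset.Ico i₁ i₂, (ev s l w i - e l (i % P s k)) * v i| ≤ η * P s (k + 1)} =
      ⋂ l : ℕ, ⋂ _ : l ≤ k, ⋂ i₁ : ℕ, ⋂ i₂ : ℕ, ⋂ _ : i₁ ≤ i₂, ⋂ _ : i₂ ≤ P s (k + 1),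
        ⋂ v ∈ V k, {w : Wd | |∑ i ∈ Finset.Ico i₁ i₂, (ev s l w i - e l (i % P s k)) * v i| ≤
          η * P s (k + 1)} := by
    ext w
    simp only [Set.mem_setOf_eq, Set.mem_iInter]
  rw [h1]
  refine MeasurableSet.iInter fun l => MeasurableSet.iInter fun _ => MeasurableSet.iInter fun i₁ =>
    MeasurableSet.iInter fun i₂ => MeasurableSet.iInter fun _ => MeasurableSet.iInter fun _ =>
    MeasurableSet.biInter (hV k) fun v _ => ?_
  refine measurableSet_le ?_ measurable_const
  refine Measurable.abs ?_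
  refine Finset.measurable_fun_sum _ fun i _ => ?_
  exact ((meas_ev s l i).sub_const _).mul_const _

theorem meas_from (a : ℕ) : Measurable (from' a) := by
  unfold from'
  rw [measurable_pi_iff]
  intro j
  exact measurable_pi_apply _

theorem meas_cat (s : ℕ → ℕ) (k : ℕ) (Φ : Wd → Wd) (hΦ : Measurable Φ) :
    Measurable (cat s k Φ) := by
  rw [measurable_pi_iff]
  intro i
  unfold cat
  exact (measurable_pi_apply _).comp (hΦ.comp (meas_from _))

theorem meas_Phi (s : ℕ → ℕ) (V : ℕ → Set (ℕ → ℝ)) (m : Measure A) [IsProbabilityMeasure m]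
    (hV : ∀ k, (V k).Countable) (k : ℕ) : Measurable (Phi s V m k) := by
  induction k with
  | zero => exact measurable_id
  | succ k ih =>
    have hc := meas_cat s k _ ih
    show Measurable (nxt s V m k (Phi s V m k))
    unfold nxt
    refine Measurable.ite ?_ hc ?_
    · exact hc (meas_good s V hV k _ _)
    · rw [measurable_pi_iff]
      intro i
      rw [measurable_pi_iff]
      intro j
      by_cases h : j < k + 1
      · simp only [if_pos h]
        exact measurable_const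
      · simp only [if_neg h]
        exact (measurable_pi_apply j).comp ((measurable_pi_apply i).comp hc)

theorem t_MEA : S_MEA := fun s V m _ hV =>
  ⟨fun l i => meas_ev s l i, fun k η e => meas_good s V hV k η e, fun k Φ h => meas_cat s k Φ h,
    fun k => meas_Phi s V m hV k⟩

end Pool.Agent.Helper23.MB
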